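import Pool.Agent.K6.H19.KT.Main

set_option autoImplicit false

/-!
# Right and left Kasch rings which are right generalized `R`-tight have a finite essential right socle

Q1 of the problem asks whether `Soc(R_R)` is finitely generated and essential in `R_R` if `R` is right
Kasch and right generalized `R`-tight (every cyclic submodule of `E(R_R)` embeds in a free right module).
The theorem says that this is true if `R` is left Kasch, too. This was known only under the stronger
hypothesis that `R` is right generalized tight (every finitely generated submodule of `E(R_R)` embeds in a
free right module). In particular Q1 has a positive answer for commutative rings and, more generally, for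
rings with an anti-automorphism, as such rings are left Kasch if they are right Kasch.

The proof. Let `V` and `I₀` be right ideals with `V ∩ I₀ = 0`, and let `I` be maximal among the right ideals
which contain `I₀` and meet `V` trivially. Then `V` is essential in `R / I`, so `R / I` embeds in `E(R_R)`,
and `I` is the right annihilator of a finite set `F`. So there is

`(1)` a finite set `F` with `F I₀ = 0` and with trivial right annihilator in `V`.

Let `S = Soc(R_R)`. If `x ≠ 0` and `I` is maximal among the right ideals which do not contain `x` then
`R / I` has a simple essential socle, which embeds in `R` as `R` is right Kasch. So `I` is the right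
annihilator of a finite set `F`, and some `f x` with `f` in `F` generates a simple right ideal:

`(2)` `S` is essential as a left ideal.

Now let `B` be a proper left ideal, and `N` a maximal left ideal which contains `B`. As `R` is left Kasch,
`N t = 0` for some `t ≠ 0`. By `(2)` some `r t ≠ 0` is in `S`, and `t` is in `R r t`. So

`(3)` `B t = 0` for some `t ≠ 0` in `S`.

If `I` is a right ideal with `I ∩ S = 0` then `(1)`, for `V = S` and `I₀ = I`, gives a finite set `F` with
`F I = 0` and with trivial right annihilator in `S`. By `(3)` the left ideal `R F` is not proper, so
`I = 0`. This shows that `S` is essential. Let `B` be the set of all `r` such that `r S` is contained in a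
finitely generated submodule of `S`. If `S` is not finitely generated then the left ideal `B` is proper; let
`t` be as in `(3)`. Let `V` be a simple submodule of `t R`, and `W` a complement of `V` in `S`. By `(1)` there
is a finite set `F` with `F W = 0` and with trivial right annihilator in `V`. Then `F` is contained in `B`,
as `f S = f V`; so `F t = 0` and `F V = 0`, a contradiction.
-/

namespace Pool.Agent.Results.MP_9c7981_al.LeftKaschRings

open Pool.Agent.K6.H19.KT (RightKasch LeftKasch RightCyclicTight rightSocle)

universe u

/-- Let `R` be a ring which is right Kasch, left Kasch and right generalized `R`-tight. Then the right socle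
of `R` is finitely generated and it meets every nonzero right ideal nontrivially. -/
theorem result (R : Type u) [Ring R] (hK : RightKasch R) (hL : LeftKasch R)
    (hT : RightCyclicTight R) :
    (rightSocle R).FG ∧ ∀ I : Submodule Rᵐᵒᵖ R, I ≠ ⊥ → I ⊓ rightSocle R ≠ ⊥ :=
  ⟨Pool.Agent.K6.H19.KT.socle_fg hL hK hT, Pool.Agent.K6.H19.KT.essential hL hK hT⟩

end Pool.Agent.Results.MP_9c7981_al.LeftKaschRings
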