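import Pool.Agent.K6.H19.KT.Noeth

set_option autoImplicit false

/-!
# Left noetherian right Kasch right generalized `R`-tight rings have a finite essential right socle

Q1 of the problem asks whether `S = Soc(R_R)` is finitely generated and essential in `R_R` if `R` is right
Kasch and right generalized `R`-tight (every cyclic submodule of `E(R_R)` embeds in a free right module).
This was known if `R` is right noetherian. The theorem says that it is true if `R` is left noetherian; and
then `R` is left Kasch and semilocal, too.

The proof reduces the theorem to the result on semilocal rings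
(`Pool.Agent.Results.MP_9c7981_al.SemilocalRings`).

*`S` is an artinian right module.* Every submodule `T` of `S_R` is the annihilator in `S` of a finite subset of
`R` (`starS`), so the left annihilator is a strictly decreasing map from the submodules of `S_R` to the left
ideals of `R`.

*`R` is semilocal.* `S` is a left ideal, hence `S = R s_1 + ... + R s_n`. The kernel of the homomorphism of
right modules `R → S ^ n`, `r ↦ (s_1 r, ..., s_n r)`, is the right annihilator of `S`. This is the radical `J`:
`S J = 0` as `S_R` is semisimple; and if `S r = 0` then `r` lies in every maximal right ideal as `R` is right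
Kasch. So `R / J` embeds in the semisimple module `S ^ n`, and `R / J` is a semisimple ring.

*`J` is nilpotent on `S`.* The sequence `S ⊇ J S ⊇ J J S ⊇ ...` of submodules of `S_R` becomes stationary,
`J Z = Z`. But `Z` is a finitely generated left ideal, and so `Z = 0` by Nakayama's lemma.
-/

namespace Pool.Agent.Results.MP_9c7981_al.LeftNoetherianRings

open Pool.Agent.K6.H19.KT (RightKasch LeftKasch RightCyclicTight rightSocle)

universe u

/-- Let `R` be a left noetherian ring which is right Kasch and right generalized `R`-tight. Then the right
socle of `R` is finitely generated and meets every nonzero right ideal nontrivially; moreover `R` is left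
Kasch and `R / J(R)` is semisimple. -/
theorem result (R : Type u) [Ring R] (hR : IsNoetherianRing R) (hK : RightKasch R)
    (hT : RightCyclicTight R) :
    (rightSocle R).FG ∧ (∀ I : Submodule Rᵐᵒᵖ R, I ≠ ⊥ → I ⊓ rightSocle R ≠ ⊥) ∧
      LeftKasch R ∧ IsSemisimpleRing (R ⧸ Ring.jacobson R) :=
  have hS := Pool.Agent.K6.H19.KT.leftNoetherian_semilocal hK
  have hL := Pool.Agent.K6.H19.KT.leftKasch_of_semilocal hK hT
    (Pool.Agent.K6.H19.KT.nilpotentOnSocle (Pool.Agent.K6.H19.KT.socle_artinian hT))
  ⟨Pool.Agent.K6.H19.KT.socle_fg hL hK hT, Pool.Agent.K6.H19.KT.essential hL hK hT, hL, hS⟩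

end Pool.Agent.Results.MP_9c7981_al.LeftNoetherianRings
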