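import Pool.Agent.K6.H19.KT.Nil

set_option autoImplicit false

/-!
# Semilocal right Kasch right generalized `R`-tight rings with a nil radical

Q1 of the problem asks whether `S = Soc(R_R)` is finitely generated and essential in `R_R` if `R` is right
Kasch and right generalized `R`-tight. This was known if the Jacobson radical of `R / Z(R_R)` is completely
right T-nilpotent, and it is stated as unknown whether it is sufficient that it is completely nil. The theorem
says that for semilocal rings it is sufficient that the elements of the radical `J` of `R` act nilpotently on
`S` (for instance, that `J` is nil) if `S` is countable (for instance, if `R` is countable) or if every nonzero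
two-sided ideal in `S` contains a minimal one.

The proof. Let `C ≠ 0` be an ideal of `R` in `S`, and suppose that `J t ≠ 0` for all `t ≠ 0` in `C`.

*The main lemma.* Suppose that `B ⊆ C` is an ideal and that there are a simple module `W`, a monomorphism `θ`
from `W` to `B` and a homomorphism `L` from `S` to `W` with `L θ = 1` which is nonzero on all nonzero
ideals in `B`. As every submodule of `S` is the annihilator in `S` of a finite set (from the tightness),
there is `f` in `R` with `f (ker L) = 0` and `f θ ≠ 0`; so `f s = φ(L s)` with `φ = f θ`. There is `r` in `R`
with `0 ≠ r φ(W) ⊆ B`: this is clear if `φ(W) ⊆ B`, and otherwise `φ(W) ∩ B = 0`, some element `r` kills the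
graph `{φ(w) + θ(w)}` and not `φ(W)`, and then `r φ(w) = - r θ(w)` is in `B`. Choose `j` in `J` with
`j r φ ≠ 0`, and let `ψ = j r φ`, `g = j r f`. So `g` is in `J` and `g s = ψ(L s)`. For every `a` in `R` the
element `a g` of `J` maps `a ψ(w)` to `a ψ(μ(w))` with `μ = L a ψ`, an endomorphism of `W`. As `a g` acts
nilpotently, `μ = 0`. So `L` is zero on the ideal generated by `ψ(W)`, which is a nonzero ideal in `B`, a
contradiction.

*`C` contains no minimal ideal `B`*: otherwise let `W` be a simple submodule of `B` and `L` a projection. In
particular `C` contains no nonzero ideal which is finitely generated as a right ideal.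

*`C` is not countable*: otherwise let `W` be a simple submodule of `C`, and let `x_0, x_1, ...` be the nonzero
elements of `B = R W`. The modules `R x_n R` are sums of copies of `W`, and they are not contained in
finitely generated submodules. So there are monomorphisms `θ_n` from `W` to `R x_n R` with independent images,
and there is a homomorphism `L` from `S` to `W` with `L θ_n = 1` for all `n`, as `S` is semisimple. This
contradicts the main lemma.

So every nonzero ideal in `S` contains some `t ≠ 0` with `J t = 0`. By the argument of
`Pool.Agent.Results.MP_9c7981_al.SemilocalRings` the ring `R` is left Kasch, and the theorem follows from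
`Pool.Agent.Results.MP_9c7981_al.LeftKaschRings`.
-/

namespace Pool.Agent.Results.MP_9c7981_al.NilRadical

open Pool.Agent.K6.H19.KT (RightKasch LeftKasch RightCyclicTight rightSocle NilOnSocle
  MinimalIdealsInSocle)

universe u

/-- Let `R` be a semilocal ring which is right Kasch and right generalized `R`-tight and such that the
elements of the Jacobson radical act nilpotently on every element of the right socle. Suppose that the right
socle is countable, or that every nonzero two-sided ideal in the right socle contains a minimal one. Then
`R` is left Kasch, and the right socle of `R` is finitely generated and meets every nonzero right ideal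
nontrivially. -/
theorem result (R : Type u) [Ring R] (hS : IsSemisimpleRing (R ⧸ Ring.jacobson R))
    (hK : RightKasch R) (hT : RightCyclicTight R) (hN : NilOnSocle R)
    (hC : Countable (rightSocle R) ∨ MinimalIdealsInSocle R) :
    LeftKasch R ∧ (rightSocle R).FG ∧
      ∀ I : Submodule Rᵐᵒᵖ R, I ≠ ⊥ → I ⊓ rightSocle R ≠ ⊥ :=
  have hP := hC.elim (Pool.Agent.K6.H19.KT.killed_of_countable hT hN)
    (Pool.Agent.K6.H19.KT.killed_of_minimal hT hN)
  have hL := Pool.Agent.K6.H19.KT.leftKasch_of_killed hK hT hP
  ⟨hL, Pool.Agent.K6.H19.KT.socle_fg hL hK hT, Pool.Agent.K6.H19.KT.essential hL hK hT⟩

end Pool.Agent.Results.MP_9c7981_al.NilRadical
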