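import Pool.Agent.K6.H19.KT.Meet

set_option autoImplicit false

/-!
# Semilocal right Kasch right generalized `R`-tight rings

Q1 of the problem asks whether `S = Soc(R_R)` is finitely generated and essential in `R_R` if `R` is right
Kasch and right generalized `R`-tight. The theorem says that this is true, and that `R` is left Kasch, if
`R` is semilocal (`R / J` is semisimple, `J` the Jacobson radical) and one of the following two conditions
holds:

(a) for every finite subset `F` of `J` some power of `F` kills `S` from the left;

(b) every nonzero two-sided ideal in `S` contains some `t ≠ 0` with `J t = 0`.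

Condition (a) holds if `J` is locally nilpotent; (b) holds if `J S = 0` and, more generally, if the left socle of
`R` is essential in `R` as a left ideal. Neither T-nilpotence nor a condition on `R / Z(R_R)` is assumed.

The proof. Every submodule `T` of `S_R` is the annihilator in `S` of a finite set (`starS`, from the tightness
for a right ideal which contains `T` and is maximal with respect to meeting a complement of `T` in `S`
trivially).

*In case (a) `S` is finitely generated.* As `R / J` is artinian there is a finitely generated `T ⊆ S` such that
`A = ann(T) + J` is minimal; write `A = R e + J` with `e` idempotent modulo `J`. If `s` in `S` is fixed by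
`e` then, as `ann(T + s R) + J = A`, some `e + j` with `j` in `J` kills `s`, so `(1 + j) s = 0` and `s = 0`. So
`e - 1` is injective on `S`; as `(e - 1) e` is in `J` it is nilpotent on `S`, and so some power `e ^ m` kills
`S`. Let `F` be finite with annihilator `T` in `S`. The elements `f - f e ^ m` with `f` in `F` are in `J` and
act on `S` like the elements of `F`; so long words in them kill `S`, and the filtration of `S` by the
submodules which are killed by the words of length `j` shows that `S` is noetherian.

*(a) implies (b)*: let `C` be a nonzero ideal in `S` without such elements; then `C ⊇ J C ⊇ J J C ...` becomes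
stationary at some `Z = J Z ≠ 0` which is finitely generated, `Z = F Z` with a finite subset `F` of `J`, a
contradiction.

*`R` is left Kasch.* For an ideal `A ⊇ J` let `L(A)` be the set of all `t` in `S` with `J t = 0` and `t A = 0`,
and let `φ(A) ⊇ J` be its left annihilator, an ideal. Then `φ` is strictly monotone. In fact let `A ⊂ B` be
ideals which contain `J`, and let `H(B)` be the set of all `s` in `S` with `s B = 0`; let `F` be finite with
annihilator `H(B)` in `S`. Then `F` is contained in `φ(B)`. If `φ(A) = φ(B)` then `F` kills `L(A)`, so `L(A)`
is contained in `H(B)`. But as `R` is right Kasch and `R / J` is semisimple, the submodule `C = H(A) B` of `S`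
is nonzero, and it meets `H(B)` trivially; by (b) it contains some `t ≠ 0` in `L(A)`, a contradiction. As
`R / J` is noetherian, `J ⊂ φ(J) ⊂ φ(φ(J)) ⊂ ...` is impossible; so `φ(J) = J`. If `N` is a maximal left
ideal, `N = R g + J` with `g` idempotent modulo `J`, then `1 - g` is not in `J = φ(J)`, so `(1 - g) t ≠ 0` for
some `t` in `L(J)`, and `N` kills this element. So `R` is left Kasch.

The rest is `Pool.Agent.Results.MP_9c7981_al.LeftKaschRings`.
-/

namespace Pool.Agent.Results.MP_9c7981_al.SemilocalRings

open Pool.Agent.K6.H19.KT (RightKasch LeftKasch RightCyclicTight rightSocle NilpotentOnSocle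
  IdealsInSocleMeetKilled)

universe u

/-- Let `R` be a semilocal ring which is right Kasch and right generalized `R`-tight and such that every
finite subset of the Jacobson radical has a power which kills the right socle from the left, or such that
every nonzero two-sided ideal in the right socle contains a nonzero element which is killed by the Jacobson
radical from the left. Then `R` is left Kasch, and the right socle of `R` is finitely generated and meets every
nonzero right ideal nontrivially. -/
theorem result (R : Type u) [Ring R] (hS : IsSemisimpleRing (R ⧸ Ring.jacobson R))
    (hK : RightKasch R) (hT : RightCyclicTight R)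
    (hN : NilpotentOnSocle R ∨ IdealsInSocleMeetKilled R) :
    LeftKasch R ∧ (rightSocle R).FG ∧
      ∀ I : Submodule Rᵐᵒᵖ R, I ≠ ⊥ → I ⊓ rightSocle R ≠ ⊥ :=
  have hP := hN.elim (Pool.Agent.K6.H19.KT.killed_of_nilpotent hT) Pool.Agent.K6.H19.KT.killed_of_meet
  have hL := Pool.Agent.K6.H19.KT.leftKasch_of_killed hK hT hP
  ⟨hL, Pool.Agent.K6.H19.KT.socle_fg hL hK hT, Pool.Agent.K6.H19.KT.essential hL hK hT⟩

end Pool.Agent.Results.MP_9c7981_al.SemilocalRings
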